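import Pool.Agent.helper57.PP.Spec

/-!
# Project pp, row ENDS
-/

set_option autoImplicit false

namespace Pool.Agent.helper57.PP

open Finset

theorem ENDS (h1 : LEQ_stmt) : ENDS_stmt := by
  intro W _ T R a z bs ts C hD hS hP hC
  have hPnd : (pth a bs z).Nodup := by
    have h := hD.nd
    unfold pth
    simp only [List.nodup_cons, List.nodup_append, List.mem_cons, List.mem_append] at h ⊢
    grind
  have hsub : pe C ⊆ pe (pth a bs z) := by
    intro e he
    obtain ⟨A, x, y, B, hCe, rfl⟩ := mem_pe.1 he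
    exact hP x (hC x (mem_of_mem_pe he (by simp))) y (hC y (mem_of_mem_pe he (by simp)))
      (hS.pe_sub he)
  have hbs : bd R ⊆ pe (pth a bs z) := by
    rw [hS.bdR]
    intro e he
    rw [mem_symmDiff] at he
    rcases he with he | he
    · exact he.1
    · exact hsub he.1
  have he : bd R = ∅ := even_path hPnd hbs (evenSet_bd fun t ht => hD.card3 t (hS.sub ht))
  have hR : R = ∅ := hD.J0 R hS.sub he
  refine ⟨hR, ?_⟩
  have hpe : pe (pth a bs z) = pe C := by
    have h := hS.bdR
    rw [he] at h
    exact symmDiff_eq_bot.1 h.symm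
  obtain ⟨cs, hcs⟩ := hS.ends
  have hnd := hS.nd
  rw [hcs] at hnd hpe ⊢
  rw [h1 W a z bs cs hPnd hnd hpe]

end Pool.Agent.helper57.PP
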