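import Pool.Agent.helper57.PP.Spec

/-!
# Project pp, row HALF
-/

set_option autoImplicit false

namespace Pool.Agent.helper57.PP

open Finset

theorem HALF (h1 : ISO_stmt) (h2 : ZT_stmt) (h3 : DC_stmt) : HALF_stmt := by
  intro W _ G σ m p hD hg
  obtain ⟨-, i2, i3, -, -, -⟩ := h1 W G σ m p hD hg
  obtain ⟨z1, -, z3, -, -, -, -⟩ := h2 W m p hg.m3 i2 i3
  have hzG : zt m p ⊆ edges G := by
    intro e he
    simp only [zt, mem_image, mem_range] at he
    obtain ⟨i, -, rfl⟩ := he
    exact hg.edge i
  obtain ⟨A, hA, hAb⟩ := hD.J (zt m p) hzG z1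
  have hττ : ∀ t : Finset W, (t.image σ).image σ = t := by
    intro t
    rw [Finset.image_image]
    have : σ ∘ σ = id := funext hD.invol
    rw [this, Finset.image_id]
  have hinj : Function.Injective (fun t : Finset W => t.image σ) := by
    intro s t hst
    have := congrArg (fun t : Finset W => t.image σ) hst
    simp only [hττ] at this
    exact this
  obtain ⟨A', hA'⟩ : ∃ A' : Finset (Finset W), A' = A.image (fun t => t.image σ) := ⟨_, rfl⟩
  have hmem : ∀ t, t ∈ A' ↔ t.image σ ∈ A := by
    intro t
    rw [hA', mem_image]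
    constructor
    · rintro ⟨s, hs, rfl⟩
      rw [hττ]; exact hs
    · intro h
      exact ⟨t.image σ, h, hττ t⟩
  have hA'G : A' ⊆ G := by
    intro t ht
    have := hD.inv _ (hA ((hmem t).1 ht))
    rwa [hττ] at this
  have hcard : ∀ e : Finset W, (cof A' e).card = (cof A (e.image σ)).card := by
    intro e
    have : cof A (e.image σ) = (cof A' e).image (fun t => t.image σ) := by
      ext t
      rw [mem_cof, mem_image]
      constructor
      · rintro ⟨ht, hs⟩
        refine ⟨t.image σ, mem_cof.2 ⟨(hmem _).2 (by rw [hττ]; exact ht), ?_⟩, hττ t⟩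
        have := Finset.image_subset_image (f := σ) hs
        rwa [hττ] at this
      · rintro ⟨s, hs, rfl⟩
        rw [mem_cof] at hs
        exact ⟨(hmem s).1 hs.1, Finset.image_subset_image hs.2⟩
    rw [this, Finset.card_image_of_injective _ hinj]
  have hσinj : Function.Injective σ := by
    intro x y hxy
    have := congrArg σ hxy
    rwa [hD.invol, hD.invol] at this
  have hzt : ∀ e ∈ zt m p, e.image σ ∈ zt m p := by
    intro e he
    simp only [zt, mem_image, mem_range] at he
    obtain ⟨i, -, rfl⟩ := he
    have h4 : ({p i, p (i + 1)} : Finset W).image σ = {p (i + m), p (i + m + 1)} := by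
      rw [Finset.image_insert, Finset.image_singleton, ← hg.per i, ← hg.per (i + 1)]
      have : i + 1 + m = i + m + 1 := by omega
      rw [this]
    rw [h4]
    exact z3 (i + m)
  have hbd : bd A' = zt m p := by
    ext e
    rw [mem_bd, hcard]
    have h5 : (e.card = 2 ∧ Odd (cof A (e.image σ)).card) ↔ e.image σ ∈ bd A := by
      rw [mem_bd, Finset.card_image_of_injective _ hσinj]
    rw [h5, hAb]
    constructor
    · intro h
      have := hzt _ h
      rwa [hττ] at this
    · exact hzt e
  have hsd : bd (symmDiff A A') = ∅ := by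
    rw [bd_symmDiff, hAb, hbd, symmDiff_self]
    rfl
  have hsub : symmDiff A A' ⊆ G := by
    intro t ht
    rw [mem_symmDiff] at ht
    rcases ht with ht | ht
    · exact hA ht.1
    · exact hA'G ht.1
  rcases h3 W G hD.surf hD.conn _ hsub hsd with h | h
  · exfalso
    have hAA : A = A' := by
      have := symmDiff_eq_bot.1 h
      exact this
    apply hD.niv A hA ?_ m p hg.m3 hg.per i3 hg.edge hAb
    intro t ht
    apply (hmem t).1
    rw [← hAA]
    exact ht
  · refine ⟨A, hA, hAb, ?_⟩
    intro t ht
    rw [← h, mem_symmDiff, hmem] at ht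
    tauto

end Pool.Agent.helper57.PP
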