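import Pool.Agent.helper57.PP.Spec

/-!
# Project pp, row LCD
-/

set_option autoImplicit false

namespace Pool.Agent.helper57.PP

open Finset

theorem LCD_card {α β : Type} [DecidableEq β] (A : Finset α) (B : Finset β) (f : α → β)
    (hf : ∀ a ∈ A, f a ∈ B) (h : ∀ b ∈ B, (A.filter fun a => f a = b).card = 2) :
    A.card = 2 * B.card := by
  rw [Finset.card_eq_sum_card_fiberwise hf, Finset.sum_congr rfl h, Finset.sum_const, smul_eq_mul,
    mul_comm]

theorem LCD_add : ∀ g h w : ZMod 2, g + h = w → h = g + w := by decide

theorem LCD_two : ∀ g : ZMod 2, g = 0 ∨ g = 1 := by decide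

theorem LCD_img {V : Type} [DecidableEq V] (t : Finset (V × ZMod 2)) :
    (t.image sg).image Prod.fst = t.image Prod.fst := by
  rw [Finset.image_image]
  rfl

theorem LCD (h1 : LED_stmt) : LCD_stmt := by
  intro V _ _ F w hF hw
  obtain ⟨g1, g2, g3, g4, g5⟩ := h1 V F w hF hw
  constructor
  · apply LCD_card _ _ (fun t => t.image Prod.fst)
    · intro t ht
      simp only [lift, mem_filter] at ht
      exact ht.2.2.1
    · intro t0 ht0
      obtain ⟨a, b, c, hab, hac, hbc, rfl⟩ := Finset.card_eq_three.1 (hF.card3 t0 ht0)
      obtain ⟨r, hr⟩ : ∃ r : Finset (V × ZMod 2), r = {(a, 0), (b, w {a, b}), (c, w {a, c})} :=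
        ⟨_, rfl⟩
      have hrl : r ∈ lift F w := by
        rw [hr]
        exact (g2 (a, 0) (b, w {a, b}) (c, w {a, c})).2
          ⟨hab, hac, hbc, ht0, by simp, by simp⟩
      have hri : r.image Prod.fst = {a, b, c} := by
        rw [hr]
        simp [Finset.image_insert]
      have hne : r ≠ r.image sg := by
        intro h
        have h2 : sg (a, (0 : ZMod 2)) ∈ r.image sg :=
          Finset.mem_image_of_mem sg (by rw [hr]; simp)
        rw [← h, hr] at h2
        simp only [sg, mem_insert, mem_singleton, Prod.mk.injEq] at h2
        rcases h2 with h2 | h2 | h2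
        · exact absurd h2.2 (by decide)
        · exact hab h2.1
        · exact hac h2.1
      have hfib : (lift F w).filter (fun t => t.image Prod.fst = {a, b, c}) = {r, r.image sg} := by
        ext t
        simp only [mem_filter, mem_insert, mem_singleton]
        constructor
        · rintro ⟨ht, hti⟩
          exact g5 r hrl t ht (by rw [hri, hti])
        · rintro (rfl | rfl)
          · exact ⟨hrl, hri⟩
          · exact ⟨g3 r hrl, by rw [LCD_img, hri]⟩
      rw [hfib, Finset.card_pair hne]
  · apply LCD_card _ _ (fun t => t.image Prod.fst)
    · intro e he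
      exact (g4 e he).2
    · intro e0 he0
      obtain ⟨a, b, hab, rfl⟩ := Finset.card_eq_two.1 (mem_edges.1 he0).1
      have hfib : (edges (lift F w)).filter (fun t => t.image Prod.fst = {a, b}) =
          {{(a, 0), (b, 0 + w {a, b})}, {(a, 1), (b, 1 + w {a, b})}} := by
        ext e
        simp only [mem_filter, mem_insert, mem_singleton]
        constructor
        · rintro ⟨he, hei⟩
          obtain ⟨x, y, hxy, rfl⟩ := Finset.card_eq_two.1 (mem_edges.1 he).1
          obtain ⟨k1, k2, k3⟩ := (g1 x y).1 he
          obtain ⟨x1, x2⟩ := x
          obtain ⟨y1, y2⟩ := y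
          simp only at k1 k2 k3
          have hi : ({x1, y1} : Finset V) = {a, b} := by
            rw [← hei]
            simp [Finset.image_insert]
          rw [hi] at k3
          have hx1 : x1 = a ∨ x1 = b := by
            have : x1 ∈ ({a, b} : Finset V) := by rw [← hi]; simp
            simpa using this
          have hy1 : y1 = a ∨ y1 = b := by
            have : y1 ∈ ({a, b} : Finset V) := by rw [← hi]; simp
            simpa using this
          rcases hx1 with rfl | rfl
          · rcases hy1 with rfl | rfl
            · exact absurd rfl k1
            · have := LCD_add _ _ _ k3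
              subst this
              rcases LCD_two x2 with rfl | rfl
              · left; rfl
              · right; rfl
          · rcases hy1 with rfl | rfl
            · rw [add_comm] at k3
              have := LCD_add _ _ _ k3
              subst this
              rcases LCD_two y2 with rfl | rfl
              · left; exact Finset.pair_comm _ _
              · right; exact Finset.pair_comm _ _
            · exact absurd rfl k1
        · rintro (rfl | rfl)
          · refine ⟨(g1 (a, 0) (b, 0 + w {a, b})).2 ⟨hab, he0, by simp⟩, ?_⟩
            simp [Finset.image_insert]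
          · refine ⟨(g1 (a, 1) (b, 1 + w {a, b})).2 ⟨hab, he0, ?_⟩, ?_⟩
            · show (1 : ZMod 2) + (1 + w {a, b}) = w {a, b}
              rw [← add_assoc]
              have : (1 : ZMod 2) + 1 = 0 := by decide
              rw [this, zero_add]
            · simp [Finset.image_insert]
      rw [hfib, Finset.card_pair]
      intro h
      have h2 : ((a, (0 : ZMod 2)) : V × ZMod 2) ∈
          ({(a, 1), (b, 1 + w {a, b})} : Finset (V × ZMod 2)) := by
        rw [← h]; simp
      simp only [mem_insert, mem_singleton, Prod.mk.injEq] at h2
      rcases h2 with h2 | h2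
      · exact absurd h2.2 (by decide)
      · exact hab h2.1

end Pool.Agent.helper57.PP
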